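import Mathlib

set_option autoImplicit false
set_option linter.unusedSectionVars false

/-!
# Implication form and dissipative form of ISS Lyapunov functions, for every state space

On every nonzero normed space `X` there is a control system with jointly continuous flow for which
the norm is an ISS Lyapunov function in implication form but not in dissipative form: the
homeomorphism `x ↦ ‖x‖ x` conjugates the system to the linear equation `y' = - y + u(t) e`.
-/

namespace Pool.Agent.Results.MP_cf29c0_an.EveryStateSpace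

open MeasureTheory Set Real Filter Topology
open scoped NNReal ENNReal

universe w

/-! ### Definitions of the problem -/

/-- the class `PD` of positive definite functions -/
def PD (γ : ℝ≥0 → ℝ≥0) : Prop := Continuous γ ∧ γ 0 = 0 ∧ ∀ r, 0 < r → 0 < γ r

/-- the class `K` -/
def ClassK (γ : ℝ≥0 → ℝ≥0) : Prop := PD γ ∧ StrictMono γ

/-- the class `K_∞` -/
def ClassKInf (γ : ℝ≥0 → ℝ≥0) : Prop := ClassK γ ∧ ∀ b, ∃ r, b < γ r

/-- control systems with state space `X`, input values in `U`, and input space `I`, whose elements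
are functions `ℝ≥0 → U` through the injective linear map `ev` -/
structure System (X : Type w) (U I : Type) [NormedAddCommGroup X] [NormedSpace ℝ X]
    [NormedAddCommGroup U] [NormedSpace ℝ U] [NormedAddCommGroup I] [NormedSpace ℝ I] where
  ev : I →ₗ[ℝ] (ℝ≥0 → U)
  ev_injective : Function.Injective ev
  shift : ∀ u τ, ∃ v, (∀ s, ev v s = ev u (s + τ)) ∧ ‖v‖ ≤ ‖u‖
  concat : ∀ u v t, 0 < t → ∃ w, ∀ s, ev w s = if s ≤ t then ev u s else ev v (s - t)
  φ : ℝ≥0 → X → I → X
  φ_zero : ∀ x u, φ 0 x u = x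
  causal : ∀ t x u v, (∀ s ≤ t, ev u s = ev v s) → φ t x u = φ t x v
  continuous_time : ∀ x u, Continuous fun t => φ t x u
  cocycle : ∀ t h x u v, (∀ s, ev v s = ev u (t + s)) → φ h (φ t x u) v = φ (t + h) x u

variable {X : Type w} {U I : Type} [NormedAddCommGroup X] [NormedSpace ℝ X]
  [NormedAddCommGroup U] [NormedSpace ℝ U] [NormedAddCommGroup I] [NormedSpace ℝ I]

/-- the derivative `V̇_u(x)` -/
noncomputable def dini (S : System X U I) (V : X → ℝ≥0) (x : X) (u : I) : EReal :=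
  limsup (fun t : ℝ≥0 => ((((V (S.φ t x u) : ℝ) - V x) / t : ℝ) : EReal)) (𝓝[>] 0)

/-- `V` is a continuous function with the two-sided bound -/
def Sandwich (V : X → ℝ≥0) : Prop :=
  Continuous V ∧ ∃ ψ₁ ψ₂, ClassKInf ψ₁ ∧ ClassKInf ψ₂ ∧ ∀ x, ψ₁ ‖x‖₊ ≤ V x ∧ V x ≤ ψ₂ ‖x‖₊

/-- `V` is an ISS Lyapunov function in implication form -/
def Implication (S : System X U I) (V : X → ℝ≥0) : Prop :=
  Sandwich V ∧ ∃ χ α, ClassKInf χ ∧ PD α ∧
    ∀ x u, χ ‖u‖₊ ≤ ‖x‖₊ → dini S V x u ≤ ((-(α ‖x‖₊ : ℝ) : ℝ) : EReal)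

/-- `V` is an ISS Lyapunov function in dissipative form -/
def Dissipative (S : System X U I) (V : X → ℝ≥0) : Prop :=
  Sandwich V ∧ ∃ α σ, ClassKInf α ∧ ClassK σ ∧
    ∀ x u, dini S V x u ≤ ((-(α ‖x‖₊ : ℝ) + σ ‖u‖₊ : ℝ) : EReal)

/-- the inputs are exactly the bounded measurable functions, with the supremum norm -/
def BoundedMeasurableInputs (S : System X ℝ I) : Prop :=
  (∀ f : ℝ≥0 → ℝ, (∃ u, S.ev u = f) ↔ (Measurable f ∧ ∃ C, ∀ s, |f s| ≤ C)) ∧
  ∀ u, ‖u‖ = ⨆ s, |S.ev u s|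

/-- The system on `X` has a jointly continuous flow, satisfies the estimate
`‖φ(t, x, u)‖ ^ 2 ≤ e ^ (-t) ‖x‖ ^ 2 + (1 - e ^ (-t)) ‖u‖`, and its norm is an ISS Lyapunov function
in implication form with `V̇_u(x) ≤ - ‖x‖ / 4` for `2 ‖u‖ ≤ ‖x‖ ^ 2`. -/
def Tame (S : System X U I) : Prop :=
  (Continuous fun p : ℝ≥0 × X × I => S.φ p.1 p.2.1 p.2.2) ∧
  (∀ t x u, ‖S.φ t x u‖ ^ 2 ≤ exp (-t) * ‖x‖ ^ 2 + (1 - exp (-t)) * ‖u‖) ∧
  (∀ x u, 2 * ‖u‖ ≤ ‖x‖ ^ 2 → dini S (fun x => ‖x‖₊) x u ≤ ((-(‖x‖ / 4) : ℝ) : EReal)) ∧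
  Implication S (fun x => ‖x‖₊)

/-! ### The inputs -/

/-- bounded measurable functions `ℝ≥0 → ℝ` with the supremum norm -/
def Inp : Submodule ℝ (lp (fun _ : ℝ≥0 => ℝ) ∞) where
  carrier := {u | Measurable fun t => u t}
  add_mem' a b := a.add b
  zero_mem' := measurable_const
  smul_mem' c _ a := a.const_smul c

lemma ule (u : Inp) (s : ℝ≥0) : |u.1 s| ≤ ‖u‖ := lp.norm_apply_le_norm ENNReal.top_ne_zero u.1 s

lemma ii (u : Inp) (a b : ℝ) : IntervalIntegrable (fun s => exp s * u.1 s.toNNReal) volume a b :=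
  IntervalIntegrable.continuousOn_mul (IntervalIntegrable.mono_fun' intervalIntegrable_const
    (u.2.comp measurable_real_toNNReal).aestronglyMeasurable (.of_forall fun _ => ule u _))
    (by fun_prop)

/-- `∫_0^t e^s u(s) ds` -/
noncomputable def G (t : ℝ) (u : Inp) : ℝ := ∫ s in (0 : ℝ)..t, exp s * u.1 s.toNNReal

lemma G_le {t : ℝ} (ht : 0 ≤ t) (u : Inp) : |G t u| ≤ (exp t - 1) * ‖u‖ := by
  have : ‖∫ s in (0 : ℝ)..t, exp s * u.1 s.toNNReal‖ ≤ ∫ s in (0 : ℝ)..t, exp s * ‖u‖ :=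
    intervalIntegral.norm_integral_le_of_norm_le ht (.of_forall fun s _ => by
      rw [norm_mul, Real.norm_of_nonneg (exp_pos _).le]; gcongr; exact ule u _)
      (Continuous.intervalIntegrable (by fun_prop) _ _)
  rwa [intervalIntegral.integral_mul_const, integral_exp, exp_zero] at this

lemma G_add (t : ℝ) (u v : Inp) : G t (u + v) = G t u + G t v := by
  unfold G
  rw [← intervalIntegral.integral_add (ii u _ _) (ii v _ _)]
  refine intervalIntegral.integral_congr fun s _ => ?_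
  change _ * (u.1 _ + v.1 _) = _
  ring

lemma G_cont (u : Inp) : Continuous fun t : ℝ≥0 => G t u :=
  (intervalIntegral.continuous_primitive (ii u) 0).comp NNReal.continuous_coe

lemma G_causal {t : ℝ≥0} {u v : Inp} (h : ∀ s ≤ t, u.1 s = v.1 s) : G t u = G t v := by
  refine intervalIntegral.integral_congr fun s hs => ?_
  rw [uIcc_of_le t.coe_nonneg] at hs
  simp only [h _ (Real.toNNReal_le_iff_le_coe.2 hs.2)]

lemma G_cocycle (t h : ℝ≥0) {u v : Inp} (H : ∀ s, v.1 s = u.1 (t + s)) :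
    G (t + h : ℝ≥0) u = G t u + exp t * G h v := by
  unfold G
  have e1 : exp t * ∫ s in (0 : ℝ)..h, exp s * v.1 s.toNNReal =
      ∫ s in (t : ℝ)..t + h, exp s * u.1 s.toNNReal := by
    have := intervalIntegral.integral_comp_add_left (a := 0) (b := h)
      (fun s => exp s * u.1 s.toNNReal) t
    rw [add_zero] at this
    rw [← this, ← intervalIntegral.integral_const_mul]
    refine intervalIntegral.integral_congr fun s hs => ?_
    rw [uIcc_of_le h.coe_nonneg] at hs
    simp only [H, Real.toNNReal_add t.coe_nonneg hs.1, Real.toNNReal_coe, exp_add]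
    ring
  rw [e1, NNReal.coe_add, intervalIntegral.integral_add_adjacent_intervals (ii u _ _) (ii u _ _)]

lemma G_joint : Continuous fun p : ℝ≥0 × Inp => G p.1 p.2 := by
  rw [continuous_iff_continuousAt]
  rintro ⟨t0, u0⟩
  rw [ContinuousAt, tendsto_iff_norm_sub_tendsto_zero]
  have h1 : Tendsto (fun p : ℝ≥0 × Inp => (exp p.1 - 1) * ‖p.2 - u0‖ + ‖G p.1 u0 - G t0 u0‖)
      (𝓝 (t0, u0)) (𝓝 0) := by
    have c1 : Continuous fun p : ℝ≥0 × Inp => (exp p.1 - 1) * ‖p.2 - u0‖ := by fun_prop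
    have c2 : Continuous fun p : ℝ≥0 × Inp => ‖G p.1 u0 - G t0 u0‖ :=
      (((G_cont u0).comp continuous_fst).sub continuous_const).norm
    have c3 : Continuous fun p : ℝ≥0 × Inp =>
        (exp p.1 - 1) * ‖p.2 - u0‖ + ‖G p.1 u0 - G t0 u0‖ := c1.add c2
    have := c3.tendsto (t0, u0)
    simpa using this
  refine squeeze_zero (fun _ => norm_nonneg _) (fun p => ?_) h1
  have e1 : G p.1 p.2 - G t0 u0 = G p.1 (p.2 - u0) + (G p.1 u0 - G t0 u0) := by
    have := G_add p.1 (p.2 - u0) u0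
    rw [sub_add_cancel] at this
    rw [this]; ring
  rw [e1]
  exact (norm_add_le _ _).trans (add_le_add (G_le p.1.2 _) le_rfl)

/-! ### The homeomorphism `x ↦ ‖x‖ x` -/

/-- `x ↦ ‖x‖ x` -/
noncomputable def sqr (x : X) : X := ‖x‖ • x

/-- the inverse of `sqr` -/
noncomputable def root (y : X) : X := (√‖y‖)⁻¹ • y

lemma norm_sqr (x : X) : ‖sqr x‖ = ‖x‖ ^ 2 := by
  rw [sqr, norm_smul, norm_norm, sq]

lemma norm_root (y : X) : ‖root y‖ = √‖y‖ := by
  rw [root, norm_smul, norm_inv, Real.norm_of_nonneg (Real.sqrt_nonneg _)]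
  rcases eq_or_ne y 0 with rfl | h
  · simp
  · have h1 : 0 < √‖y‖ := Real.sqrt_pos.2 (norm_pos_iff.2 h)
    have h2 := Real.mul_self_sqrt (norm_nonneg y)
    field_simp
    rw [sq]; exact h2.symm

lemma root_sqr (x : X) : root (sqr x) = x := by
  rw [root, norm_sqr, Real.sqrt_sq (norm_nonneg _), sqr]
  rcases eq_or_ne x 0 with rfl | h
  · simp
  · rw [smul_smul, inv_mul_cancel₀ (norm_ne_zero_iff.2 h), one_smul]

lemma sqr_root (y : X) : sqr (root y) = y := by
  rw [sqr, norm_root, root]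
  rcases eq_or_ne y 0 with rfl | h
  · simp
  · rw [smul_smul, mul_inv_cancel₀ (Real.sqrt_pos.2 (norm_pos_iff.2 h)).ne', one_smul]

lemma cont_sqr : Continuous (sqr : X → X) := by unfold sqr; fun_prop

lemma cont_root : Continuous (root : X → X) := by
  rw [continuous_iff_continuousAt]
  intro y
  rcases eq_or_ne y 0 with rfl | h
  · have e : root (0 : X) = 0 := by simp [root]
    rw [ContinuousAt, e, tendsto_zero_iff_norm_tendsto_zero]
    have : Continuous fun y : X => √‖y‖ := by fun_prop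
    have h2 := this.tendsto 0
    simpa [norm_root] using h2
  · unfold root
    exact ContinuousAt.smul (ContinuousAt.inv₀ (by fun_prop)
      (Real.sqrt_pos.2 (norm_pos_iff.2 h)).ne') continuousAt_id

/-! ### The system -/

/-- the linear flow of `y' = - y + u(t) e` -/
noncomputable def lin (e : X) (t : ℝ≥0) (y : X) (u : Inp) : X :=
  exp (-t) • y + (exp (-t) * G t u) • e

lemma lin_le {e : X} (he : ‖e‖ = 1) (t : ℝ≥0) (y : X) (u : Inp) :
    ‖lin e t y u‖ ≤ exp (-t) * ‖y‖ + (1 - exp (-t)) * ‖u‖ := by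
  refine (norm_add_le _ _).trans ?_
  rw [norm_smul, norm_smul, he, mul_one, Real.norm_of_nonneg (exp_pos _).le, norm_mul,
    Real.norm_of_nonneg (exp_pos _).le]
  have h1 := mul_le_mul_of_nonneg_left (G_le t.2 u) (exp_pos (-(t : ℝ))).le
  have h2 : exp (-(t : ℝ)) * ((exp t - 1) * ‖u‖) = (1 - exp (-t)) * ‖u‖ := by
    rw [← mul_assoc, mul_sub, ← exp_add]; simp
  rw [← h2]
  exact add_le_add le_rfl h1

/-- the control system -/
noncomputable def sys (e : X) : System X ℝ Inp where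
  ev := ⟨⟨fun u s => u.1 s, fun _ _ => rfl⟩, fun _ _ => rfl⟩
  ev_injective u v h := Subtype.ext (lp.ext h)
  shift u τ := ⟨⟨⟨fun s => u.1 (s + τ), memℓp_infty ⟨_, forall_mem_range.2 fun s => ule u _⟩⟩,
      u.2.comp (measurable_add_const τ)⟩, fun _ => rfl,
      lp.norm_le_of_forall_le (norm_nonneg _) fun s => ule u _⟩
  concat u v t _ := ⟨⟨⟨fun s => if s ≤ t then u.1 s else v.1 (s - t), memℓp_infty ⟨max ‖u‖ ‖v‖,
      forall_mem_range.2 fun s => by
        split_ifs
        exacts [(ule u _).trans (le_max_left _ _), (ule v _).trans (le_max_right _ _)]⟩⟩,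
        .ite measurableSet_Iic u.2 (v.2.comp (by fun_prop))⟩, fun _ => rfl⟩
  φ t x u := root (lin e t (sqr x) u)
  φ_zero x u := by simp [lin, G, root_sqr]
  causal t x u v h := by
    have h' : G t u = G t v := G_causal h
    simp only [lin, h']
  continuous_time x u := by
    refine cont_root.comp ?_
    unfold lin
    have := G_cont u
    fun_prop
  cocycle t h x u v H := by
    rw [sqr_root]
    congr 1
    unfold lin
    rw [G_cocycle t h H, NNReal.coe_add, neg_add, exp_add, smul_add, smul_smul, smul_smul, add_assoc,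
      ← add_smul]
    have e1 : exp (-(t : ℝ)) * exp t = 1 := by rw [← exp_add]; simp
    congr 2
    · ring
    · linear_combination (-exp (-(h : ℝ)) * G h v) * e1

lemma norm_flow (e : X) (t : ℝ≥0) (x : X) (u : Inp) :
    ‖(sys e).φ t x u‖ = √‖lin e t (sqr x) u‖ := norm_root _

lemma flow_sq {e : X} (he : ‖e‖ = 1) (t : ℝ≥0) (x : X) (u : Inp) :
    ‖(sys e).φ t x u‖ ^ 2 ≤ exp (-t) * ‖x‖ ^ 2 + (1 - exp (-t)) * ‖u‖ := by
  rw [norm_flow, Real.sq_sqrt (norm_nonneg _), ← norm_sqr]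
  exact lin_le he t _ u

lemma flow_joint (e : X) : Continuous fun p : ℝ≥0 × X × Inp => (sys e).φ p.1 p.2.1 p.2.2 := by
  refine cont_root.comp ?_
  unfold lin
  have h1 : Continuous fun p : ℝ≥0 × X × Inp => G p.1 p.2.2 :=
    G_joint.comp (continuous_fst.prodMk (continuous_snd.comp continuous_snd))
  have h2 : Continuous fun p : ℝ≥0 × X × Inp => sqr p.2.1 :=
    cont_sqr.comp (continuous_fst.comp continuous_snd)
  fun_prop

lemma sl : Tendsto (fun t : ℝ≥0 => (exp (-(t : ℝ)) - 1) / t) (𝓝[>] 0) (𝓝 (-1)) := by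
  have := (hasDerivAt_id (0 : ℝ)).neg.exp.tendsto_slope_zero_right.comp
    (NNReal.map_coe_nhdsGT 0).le
  simpa [Function.comp_def, div_eq_inv_mul] using this

/-- the decay in the region `2 ‖u‖ ≤ ‖x‖ ^ 2` -/
lemma decay {e : X} (he : ‖e‖ = 1) (x : X) (u : Inp) (h : 2 * ‖u‖ ≤ ‖x‖ ^ 2) :
    dini (sys e) (fun x => ‖x‖₊) x u ≤ ((-(‖x‖ / 4) : ℝ) : EReal) := by
  have T := sl.mul_const (‖x‖ / 4)
  refine (limsup_le_limsup ?_).trans ((EReal.tendsto_coe.2 T).limsup_eq.trans_le (le_of_eq (by simp)))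
  filter_upwards [self_mem_nhdsWithin] with t (t0 : (0 : ℝ) < t)
  rw [EReal.coe_le_coe_iff, coe_nnnorm, coe_nnnorm, div_mul_eq_mul_div]
  refine div_le_div_of_nonneg_right ?_ t0.le
  have h1 := flow_sq he t x u
  have h2 : exp (-(t : ℝ)) ≤ 1 := exp_le_one_iff.2 (by linarith)
  have h3 := exp_pos (-(t : ℝ))
  have h4 : ‖(sys e).φ t x u‖ ^ 2 ≤ (‖x‖ * (3 + exp (-t)) / 4) ^ 2 := by
    refine h1.trans ?_
    have h5 := mul_le_mul_of_nonneg_left h (sub_nonneg.2 h2)
    nlinarith [sq_nonneg (‖x‖ * (1 - exp (-(t : ℝ))))]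
  have h6 := abs_le_of_sq_le_sq' h4 (by positivity) |>.2
  nlinarith

/-- a constant input -/
noncomputable def one : Inp :=
  ⟨⟨fun _ => 1, memℓp_infty ⟨1, forall_mem_range.2 fun s => by simp⟩⟩, measurable_const⟩

/-- no bound at the origin -/
lemma blowup {e : X} (he : ‖e‖ = 1) : dini (sys e) (fun x => ‖x‖₊) 0 one = ⊤ := by
  have hG : ∀ t : ℝ≥0, G t one = exp t - 1 := fun t => by
    have : G t one = ∫ s in (0 : ℝ)..t, exp s := by
      refine intervalIntegral.integral_congr fun s _ => ?_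
      change exp s * 1 = exp s
      ring
    rw [this, integral_exp, exp_zero]
  have hV : ∀ t : ℝ≥0, ‖(sys e).φ t 0 one‖ = √(1 - exp (-t)) := fun t => by
    have h0 : sqr (0 : X) = 0 := by simp [sqr]
    rw [norm_flow, lin, hG, h0, smul_zero, zero_add, norm_smul, he, mul_one, mul_sub, ← exp_add,
      neg_add_cancel, exp_zero, mul_one, Real.norm_of_nonneg]
    exact sub_nonneg.2 (exp_le_one_iff.2 (neg_nonpos.2 t.2))
  refine Tendsto.limsup_eq ?_
  rw [EReal.tendsto_coe_nhds_top_iff]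
  have h1 : Tendsto (fun t : ℝ≥0 => (√(2 * t))⁻¹) (𝓝[>] 0) atTop := by
    refine tendsto_inv_nhdsGT_zero.comp (tendsto_nhdsWithin_iff.2 ⟨?_, ?_⟩)
    · have : Continuous fun t : ℝ≥0 => √(2 * (t : ℝ)) := by fun_prop
      have := this.tendsto 0
      simp only [NNReal.coe_zero, mul_zero, Real.sqrt_zero] at this
      exact this.mono_left nhdsWithin_le_nhds
    · filter_upwards [self_mem_nhdsWithin] with t (t0 : (0 : ℝ) < t)
      exact Real.sqrt_pos.2 (by linarith)
  refine tendsto_atTop_mono' _ ?_ h1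
  have hsmall : ∀ᶠ t : ℝ≥0 in 𝓝[>] 0, t ≤ 1 :=
    nhdsWithin_le_nhds (Iic_mem_nhds one_pos)
  filter_upwards [self_mem_nhdsWithin, hsmall] with t (t0 : (0 : ℝ) < t) t1
  have t1' : (t : ℝ) ≤ 1 := by exact_mod_cast t1
  rw [coe_nnnorm, coe_nnnorm, norm_zero, sub_zero, hV]
  have h2 : (t : ℝ) / 2 ≤ 1 - exp (-t) := by
    have h5 : exp (-(t : ℝ)) * (1 + t) ≤ 1 := by
      have := mul_le_mul_of_nonneg_left (Real.add_one_le_exp (t : ℝ)) (exp_pos (-(t : ℝ))).le
      rw [← exp_add, neg_add_cancel, exp_zero] at this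
      linarith
    by_contra hn
    push Not at hn
    nlinarith [mul_pos (sub_pos.2 hn) (by linarith : (0 : ℝ) < 1 + t)]
  have h3 : √((t : ℝ) / 2) ≤ √(1 - exp (-t)) := Real.sqrt_le_sqrt h2
  have h4 : (√(2 * (t : ℝ)))⁻¹ = √((t : ℝ) / 2) / t := by
    have h5 : √(2 * (t : ℝ)) * √((t : ℝ) / 2) = t := by
      rw [← Real.sqrt_mul (by positivity), show 2 * (t : ℝ) * (t / 2) = t ^ 2 by ring,
        Real.sqrt_sq t0.le]
    have h6 : 0 < √(2 * (t : ℝ)) := Real.sqrt_pos.2 (by positivity)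
    rw [eq_div_iff t0.ne', inv_mul_eq_iff_eq_mul₀ h6.ne']
    exact h5.symm
  rw [h4]
  exact div_le_div_of_nonneg_right h3 t0.le

/-! ### Comparison functions and the theorem -/

lemma kinf_id : ClassKInf id :=
  ⟨⟨⟨continuous_id, rfl, fun _ h => h⟩, strictMono_id⟩, fun b => ⟨b + 1, lt_add_one b⟩⟩

lemma kinf_sqrt : ClassKInf fun r => NNReal.sqrt (2 * r) := by
  refine ⟨⟨⟨by fun_prop, by simp, fun r h => ?_⟩, fun a b h => ?_⟩, fun b => ⟨b ^ 2 + 1, ?_⟩⟩
  · exact NNReal.sqrt_pos.2 (mul_pos two_pos h)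
  · exact NNReal.sqrt_lt_sqrt.2 ((mul_lt_mul_iff_right₀ two_pos).2 h)
  · have h1 : b ^ 2 < 2 * (b ^ 2 + 1) := calc
      b ^ 2 < b ^ 2 + 1 := lt_add_one _
      _ ≤ 2 * (b ^ 2 + 1) := le_mul_of_one_le_left (by positivity) one_le_two
    have h2 := NNReal.sqrt_lt_sqrt.2 h1
    rwa [NNReal.sqrt_sq] at h2

lemma kinf_quarter : ClassKInf fun r => r / 4 := by
  refine ⟨⟨⟨by fun_prop, by simp, fun r h => by positivity⟩, fun a b h => ?_⟩,
    fun b => ⟨4 * b + 4, ?_⟩⟩
  · exact div_lt_div_of_pos_right h (by norm_num)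
  · rw [lt_div_iff₀ (by norm_num)]
    calc b * 4 = 4 * b := mul_comm _ _
      _ < 4 * b + 4 := lt_add_of_pos_right _ (by norm_num)

lemma sandwich_norm : Sandwich (fun x : X => ‖x‖₊) :=
  ⟨continuous_nnnorm, id, id, kinf_id, kinf_id, fun _ => ⟨le_rfl, le_rfl⟩⟩

/-- Every ISS Lyapunov function in implication form of a control system with state space `X` is one
in dissipative form. -/
def ImplicationSuffices (X : Type w) [NormedAddCommGroup X] [NormedSpace ℝ X] : Prop :=
  ∀ (U I : Type) [NormedAddCommGroup U] [NormedSpace ℝ U] [NormedAddCommGroup I]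
    [NormedSpace ℝ I] (S : System X U I) (V : X → ℝ≥0), Implication S V → Dissipative S V

/-- **Implication form and dissipative form differ on every nonzero state space.**  (1) For a normed
space `X`, every ISS Lyapunov function in implication form of a control system with state space `X`
is one in dissipative form iff `X = 0`.  (2) On every nonzero normed space `X` there is a control
system with scalar inputs and jointly continuous flow, for which the norm is an ISS Lyapunov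
function in implication form with explicit rates, but not in dissipative form, with
`V̇_u(0) = ∞` for some `u`. -/
theorem result (X : Type w) [NormedAddCommGroup X] [NormedSpace ℝ X] :
    (ImplicationSuffices X ↔ Subsingleton X) ∧
    (Nontrivial X → ∃ (I : Type) (_ : NormedAddCommGroup I) (_ : NormedSpace ℝ I)
      (S : System X ℝ I), BoundedMeasurableInputs S ∧ Tame S ∧
      ¬ Dissipative S (fun x => ‖x‖₊) ∧ ∃ u, dini S (fun x => ‖x‖₊) 0 u = ⊤) := by
  have main : Nontrivial X → ∃ (I : Type) (_ : NormedAddCommGroup I) (_ : NormedSpace ℝ I)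
      (S : System X ℝ I), BoundedMeasurableInputs S ∧ Tame S ∧
      ¬ Dissipative S (fun x => ‖x‖₊) ∧ ∃ u, dini S (fun x => ‖x‖₊) 0 u = ⊤ := by
    intro hX
    obtain ⟨e, he⟩ := exists_norm_eq X zero_le_one
    refine ⟨Inp, inferInstance, inferInstance, sys e, ⟨fun f => ⟨?_, ?_⟩, fun u => ?_⟩,
      ⟨flow_joint e, flow_sq he, decay he, sandwich_norm, _, _, kinf_sqrt,
      kinf_quarter.1.1, fun x u h => ?_⟩, ?_, one, blowup he⟩
    · rintro ⟨u, rfl⟩
      exact ⟨u.2, ‖u‖, fun s => ule u s⟩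
    · rintro ⟨hf, C, hC⟩
      exact ⟨⟨⟨f, memℓp_infty ⟨C, forall_mem_range.2 hC⟩⟩, hf⟩, rfl⟩
    · exact lp.norm_eq_ciSup u.1
    · have h1 : 2 * ‖u‖ ≤ ‖x‖ ^ 2 := by
        have h2 : (2 * ‖u‖₊ : ℝ≥0) ≤ ‖x‖₊ ^ 2 := NNReal.sqrt_le_iff_le_sq.1 h
        exact_mod_cast h2
      simpa using decay he x u h1
    · rintro ⟨-, α, σ, -, -, h⟩
      have h1 := h 0 one
      rw [blowup he] at h1
      exact absurd h1 (not_le.2 (EReal.coe_lt_top _))
  refine ⟨⟨fun h => ?_, fun hX => ?_⟩, main⟩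
  · by_contra hn
    rw [not_subsingleton_iff_nontrivial] at hn
    obtain ⟨I, _, _, S, -, hS, hS', -⟩ := main hn
    exact hS' (h _ _ S _ hS.2.2.2)
  · intro U I _ _ _ _ S V hV
    refine ⟨hV.1, id, id, kinf_id, kinf_id.1, fun x u => ?_⟩
    have h1 : dini S V x u = 0 := by
      have : (fun t : ℝ≥0 => ((((V (S.φ t x u) : ℝ) - V x) / t : ℝ) : EReal)) = fun _ => 0 := by
        funext t
        rw [Subsingleton.elim (S.φ t x u) x]; simp
      rw [dini, this, limsup_const]
    have h2 : ‖x‖₊ = 0 := by rw [Subsingleton.elim x 0, nnnorm_zero]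
    rw [h1, h2]
    simp

end Pool.Agent.Results.MP_cf29c0_an.EveryStateSpace
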